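import Pool.Agent.P8H72.RE.Stm
import Pool.Agent.N225.AS.Pol

/-!
# Project RE, package MTB: from weights to the uniform weight
-/

set_option autoImplicit false

open scoped Kronecker ComplexOrder
open Matrix Finset

namespace Pool.Agent.P8H53.RE

open Pool.Agent.W661.RC (hs)
open Pool.Agent.H698R3.Amalg
open Pool.Agent.N225.AS (fro_split fro_adj_le fro_mul_iso fro_iso polar)
open Pool.Agent.P8H72.RE

noncomputable section

section gen

variable {X Y Z : Type} [Fintype X] [DecidableEq X] [Fintype Y] [DecidableEq Y] [Fintype Z] [DecidableEq Z]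

/-- products of compressions -/
lemma abs1 (J : Matrix X Y ℂ) (hJ : Jᴴ * J = 1) (Fi Fj Fk : Matrix X X ℂ) (hi : Fiᴴ * Fi = 1) (hj : Fjᴴ * Fj = 1) :
    fro (Jᴴ * (Fk * J) - Jᴴ * (Fi * J) * (Jᴴ * (Fj * J))) ≤
      2 * fro (Jᴴ * ((Fk - Fi * Fj) * J)) + 2 * (Fintype.card Y - fro (Jᴴ * (Fj * J))) := by
  have e1 : Jᴴ * (Fk * J) - Jᴴ * (Fi * J) * (Jᴴ * (Fj * J)) =
      Jᴴ * ((Fk - Fi * Fj) * J) + Jᴴ * (Fi * ((1 - J * Jᴴ) * (Fj * J))) := by
    simp only [Matrix.mul_sub, Matrix.sub_mul, Matrix.mul_assoc, Matrix.one_mul]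
    abel
  have h2 : fro (Jᴴ * (Fi * ((1 - J * Jᴴ) * (Fj * J)))) ≤ Fintype.card Y - fro (Jᴴ * (Fj * J)) := by
    refine (fro_adj_le J hJ _).trans ?_
    rw [fro_mul_left Fi hi, fro_split J hJ, fro_mul_left Fj hj, fro_iso J hJ]
  rw [e1]
  have h3 := fn_add_le (Jᴴ * ((Fk - Fi * Fj) * J)) (Jᴴ * (Fi * ((1 - J * Jᴴ) * (Fj * J))))
  have h4 := fn_sq (Jᴴ * ((Fk - Fi * Fj) * J))
  have h5 := fn_sq (Jᴴ * (Fi * ((1 - J * Jᴴ) * (Fj * J))))
  have h6 := fn_nonneg (Jᴴ * ((Fk - Fi * Fj) * J))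
  have h7 := fn_nonneg (Jᴴ * (Fi * ((1 - J * Jᴴ) * (Fj * J))))
  have h8 := fn_nonneg (Jᴴ * ((Fk - Fi * Fj) * J) + Jᴴ * (Fi * ((1 - J * Jᴴ) * (Fj * J))))
  rw [← fn_sq]
  nlinarith [sq_nonneg (fn (Jᴴ * ((Fk - Fi * Fj) * J)) - fn (Jᴴ * (Fi * ((1 - J * Jᴴ) * (Fj * J)))))]

/-- from the compressions to the unitaries -/
lemma abs2 (Wi Wj Wk Ci Cj Ck : Matrix Y Y ℂ) (hi : Wiᴴ * Wi = 1)
    (hCj : ∀ A : Matrix Y Y ℂ, fro (A * Cj) ≤ fro A) :
    fro (Wk - Wi * Wj) ≤ 4 * (fro (Wk - Ck) + fro (Ck - Ci * Cj) + fro (Wi - Ci) + fro (Wj - Cj)) := by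
  have e1 : Wk - Wi * Wj = (Wk - Ck) + (Ck - Ci * Cj) + (Ci - Wi) * Cj + Wi * (Cj - Wj) := by
    simp only [Matrix.mul_sub, Matrix.sub_mul]
    abel
  have h1 : fn ((Ci - Wi) * Cj) ≤ fn (Wi - Ci) := by
    rw [fn_sub_comm Wi]
    exact Real.sqrt_le_sqrt (hCj _)
  have h2 : fn (Wi * (Cj - Wj)) = fn (Wj - Cj) := by
    rw [fn_sub_comm Wj]
    unfold fn
    rw [fro_mul_left Wi hi]
  have h3 : fn (Wk - Wi * Wj) ≤ fn (Wk - Ck) + fn (Ck - Ci * Cj) + fn (Wi - Ci) + fn (Wj - Cj) := by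
    rw [e1]
    refine (fn_add_le _ _).trans ?_
    have h4 := (fn_add_le (Wk - Ck + (Ck - Ci * Cj)) ((Ci - Wi) * Cj))
    have h5 := (fn_add_le (Wk - Ck) (Ck - Ci * Cj))
    linarith
  have n0 := fn_nonneg (Wk - Wi * Wj)
  have n1 := fn_nonneg (Wk - Ck)
  have n2 := fn_nonneg (Ck - Ci * Cj)
  have n3 := fn_nonneg (Wi - Ci)
  have n4 := fn_nonneg (Wj - Cj)
  rw [← fn_sq, ← fn_sq, ← fn_sq, ← fn_sq, ← fn_sq]
  have h6 : fn (Wk - Wi * Wj) ^ 2 ≤ (fn (Wk - Ck) + fn (Ck - Ci * Cj) + fn (Wi - Ci) + fn (Wj - Cj)) ^ 2 :=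
    pow_le_pow_left₀ n0 h3 2
  refine h6.trans ?_
  generalize fn (Wk - Ck) = a
  generalize fn (Ck - Ci * Cj) = b
  generalize fn (Wi - Ci) = c
  generalize fn (Wj - Cj) = d
  nlinarith [sq_nonneg (a - b), sq_nonneg (a - c), sq_nonneg (a - d), sq_nonneg (b - c), sq_nonneg (b - d),
    sq_nonneg (c - d)]

/-- a compression of a unitary is a contraction -/
lemma ctrL (J : Matrix X Y ℂ) (hJ : Jᴴ * J = 1) (F : Matrix X X ℂ) (hF : Fᴴ * F = 1) (v : Matrix Y Z ℂ) :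
    fro (Jᴴ * (F * J) * v) ≤ fro v := by
  rw [Matrix.mul_assoc, Matrix.mul_assoc]
  refine (fro_adj_le J hJ _).trans ?_
  rw [fro_mul_left F hF, fro_mul_left J hJ]

lemma ctrR (J : Matrix X Y ℂ) (hJ : Jᴴ * J = 1) (F : Matrix X X ℂ) (hF : F * Fᴴ = 1) (A : Matrix Z Y ℂ) :
    fro (A * (Jᴴ * (F * J))) ≤ fro A := by
  rw [← Matrix.mul_assoc, ← Matrix.mul_assoc]
  refine (fro_mul_iso J hJ _).trans ?_
  rw [fro_mul_right F hF, fro_mul_right Jᴴ (by rw [conjTranspose_conjTranspose, hJ])]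

end gen

/-! ### The embedding -/

/-- the embedding -/
def jj {n Q : ℕ} (m : Fin n → ℕ) (hm : ∀ a, m a ≤ Q) (x : Fin (∑ a, m a)) : Fin n × Fin Q :=
  ((finSigmaFinEquiv.symm x).1, Fin.castLE (hm _) (finSigmaFinEquiv.symm x).2)

lemma emb_inj {n Q : ℕ} (m : Fin n → ℕ) (hm : ∀ a, m a ≤ Q) (u v : Σ a, Fin (m a))
    (h : (u.1, Fin.castLE (hm u.1) u.2) = (v.1, Fin.castLE (hm v.1) v.2)) : u = v := by
  obtain ⟨a, c⟩ := u
  obtain ⟨b, d⟩ := v
  rw [Prod.mk.injEq] at h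
  obtain ⟨h1, h2⟩ := h
  simp only at h1
  subst h1
  have h3 : c = d := by
    apply Fin.ext
    have := congrArg Fin.val h2
    simpa using this
  rw [h3]

lemma jj_inj {n Q : ℕ} (m : Fin n → ℕ) (hm : ∀ a, m a ≤ Q) : Function.Injective (jj m hm) := by
  intro x y h
  exact finSigmaFinEquiv.symm.injective (emb_inj m hm _ _ h)

lemma jj_sum {n Q : ℕ} (m : Fin n → ℕ) (hm : ∀ a, m a ≤ Q) {R : Type} [AddCommMonoid R] (F : Fin n × Fin Q → R) :
    ∑ x, F (jj m hm x) = ∑ a, ∑ c : Fin (m a), F (a, Fin.castLE (hm a) c) := by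
  rw [← Fintype.sum_sigma' (fun a (c : Fin (m a)) => F (a, Fin.castLE (hm a) c))]
  exact Equiv.sum_comp finSigmaFinEquiv.symm (fun y : (Σ a : Fin n, Fin (m a)) => F (y.1, Fin.castLE (hm y.1) y.2))

lemma cnt (p q : ℕ) : ∑ c : Fin p, ∑ d : Fin q, (if c.val = d.val then (1 : ℝ) else 0) = (min p q : ℕ) := by
  rw [Fin.sum_univ_eq_sum_range (fun c => ∑ d : Fin q, (if c = d.val then (1 : ℝ) else 0)) p]
  have h1 : ∀ c ∈ range p, ∑ d : Fin q, (if c = d.val then (1 : ℝ) else 0) = if c < q then 1 else 0 := by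
    intro c _
    rw [Fin.sum_univ_eq_sum_range (fun d => (if c = d then (1 : ℝ) else 0)) q, Finset.sum_ite_eq]
    simp only [mem_range]
  rw [sum_congr rfl h1, ← sum_filter, sum_const, nsmul_eq_mul, mul_one]
  congr 1
  have h2 : (range p).filter (fun c => c < q) = range (min p q) := by
    ext c
    simp only [mem_filter, mem_range, lt_min_iff]
  rw [h2, card_range]

/-- `g ⊗ 1` -/
def KK {n : ℕ} (Q : ℕ) (g : Matrix (Fin n) (Fin n) ℂ) : Matrix (Fin n × Fin Q) (Fin n × Fin Q) ℂ :=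
  g ⊗ₖ (1 : Matrix (Fin Q) (Fin Q) ℂ)

lemma KK_apply {n Q : ℕ} (g : Matrix (Fin n) (Fin n) ℂ) (x y : Fin n × Fin Q) :
    KK Q g x y = g x.1 y.1 * (if x.2.val = y.2.val then 1 else 0) := by
  unfold KK
  rw [kroneckerMap_apply, Matrix.one_apply]
  congr 1
  by_cases h : x.2 = y.2
  · rw [if_pos h, if_pos (congrArg _ h)]
  · rw [if_neg h, if_neg (fun h' => h (Fin.ext h'))]

lemma KK_mul {n Q : ℕ} (g h : Matrix (Fin n) (Fin n) ℂ) : KK Q g * KK Q h = KK Q (g * h) := by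
  unfold KK
  rw [← mul_kronecker_mul, Matrix.one_mul]

lemma KK_sub {n Q : ℕ} (g h : Matrix (Fin n) (Fin n) ℂ) : KK Q g - KK Q h = KK Q (g - h) := by
  ext x y
  rw [Matrix.sub_apply, KK_apply, KK_apply, KK_apply, Matrix.sub_apply]
  ring

lemma KK_star {n Q : ℕ} (g : Matrix (Fin n) (Fin n) ℂ) : (KK Q g)ᴴ = KK Q gᴴ := by
  unfold KK
  rw [conjTranspose_kronecker, conjTranspose_one]

lemma KK_one {n Q : ℕ} : KK Q (1 : Matrix (Fin n) (Fin n) ℂ) = 1 := by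
  unfold KK
  rw [one_kronecker_one]

/-- the compression of `g ⊗ 1` -/
def CC {n Q : ℕ} (m : Fin n → ℕ) (hm : ∀ a, m a ≤ Q) (g : Matrix (Fin n) (Fin n) ℂ) :
    Matrix (Fin (∑ a, m a)) (Fin (∑ a, m a)) ℂ :=
  (Jm (jj m hm))ᴴ * (KK Q g * Jm (jj m hm))

lemma CC_apply {n Q : ℕ} (m : Fin n → ℕ) (hm : ∀ a, m a ≤ Q) (g : Matrix (Fin n) (Fin n) ℂ)
    (x y : Fin (∑ a, m a)) : CC m hm g x y = KK Q g (jj m hm x) (jj m hm y) := by
  unfold CC
  rw [mul_Jm, ← conjTranspose_conjTranspose ((KK Q g).submatrix id (jj m hm)), ← conjTranspose_mul, mul_Jm]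
  simp [Matrix.conjTranspose_apply, Matrix.submatrix_apply]

lemma fro_CC {n Q : ℕ} (m : Fin n → ℕ) (hm : ∀ a, m a ≤ Q) (g : Matrix (Fin n) (Fin n) ℂ) :
    fro (CC m hm g) = ∑ a, ∑ b, ‖g a b‖ ^ 2 * (min (m a) (m b) : ℕ) := by
  unfold fro
  have h1 : ∀ x, ∑ y, ‖CC m hm g x y‖ ^ 2 =
      (fun z : Fin n × Fin Q => ∑ b, ∑ d : Fin (m b), ‖g z.1 b‖ ^ 2 * (if z.2.val = d.val then 1 else 0)) (jj m hm x) := by
    intro x
    simp only [CC_apply]
    rw [jj_sum m hm (fun z => ‖KK Q g (jj m hm x) z‖ ^ 2)]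
    refine sum_congr rfl fun b _ => sum_congr rfl fun d _ => ?_
    rw [KK_apply]
    simp only [Fin.val_castLE]
    split_ifs
    · rw [mul_one, mul_one]
    · rw [mul_zero, norm_zero, mul_zero]
      norm_num
  refine (sum_congr rfl fun x _ => h1 x).trans ((jj_sum m hm (fun z : Fin n × Fin Q =>
    ∑ b, ∑ d : Fin (m b), ‖g z.1 b‖ ^ 2 * (if z.2.val = d.val then (1 : ℝ) else 0))).trans ?_)
  refine sum_congr rfl fun a _ => ?_
  rw [sum_comm]
  refine sum_congr rfl fun b _ => ?_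
  simp only [Fin.val_castLE]
  rw [← cnt, mul_sum]
  refine sum_congr rfl fun c _ => ?_
  rw [mul_sum]

lemma trace_CC {n Q : ℕ} (m : Fin n → ℕ) (hm : ∀ a, m a ≤ Q) (g : Matrix (Fin n) (Fin n) ℂ) :
    trace (CC m hm g) = ∑ a, (m a : ℂ) * g a a := by
  unfold trace
  simp only [Matrix.diag_apply, CC_apply]
  rw [jj_sum m hm (fun z => KK Q g z z)]
  refine sum_congr rfl fun a _ => ?_
  simp only [KK_apply]
  rw [sum_const, card_univ, Fintype.card_fin, nsmul_eq_mul]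
  simp

/-! ### The diagonal case -/

lemma col_one {n : ℕ} (f : unitaryGroup (Fin n) ℂ) (b : Fin n) : ∑ a, ‖f.1 a b‖ ^ 2 = 1 := by
  have h1 := congrFun (congrFun (uh_mul f) b) b
  rw [Matrix.mul_apply, Matrix.one_apply_eq] at h1
  have h2 : ((∑ a, ‖f.1 a b‖ ^ 2 : ℝ) : ℂ) = 1 := by
    rw [← h1]
    push_cast
    refine sum_congr rfl fun a _ => ?_
    rw [Matrix.conjTranspose_apply, Complex.star_def, ← Complex.normSq_eq_conj_mul_self, Complex.normSq_eq_norm_sq]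
    push_cast
    rfl
  exact_mod_cast h2

lemma row_one {n : ℕ} (f : unitaryGroup (Fin n) ℂ) (a : Fin n) : ∑ b, ‖f.1 a b‖ ^ 2 = 1 := by
  have h1 := congrFun (congrFun (mul_uh f) a) a
  rw [Matrix.mul_apply, Matrix.one_apply_eq] at h1
  have h2 : ((∑ b, ‖f.1 a b‖ ^ 2 : ℝ) : ℂ) = 1 := by
    rw [← h1]
    push_cast
    refine sum_congr rfl fun b _ => ?_
    rw [Matrix.conjTranspose_apply, Complex.star_def, mul_comm, ← Complex.normSq_eq_conj_mul_self,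
      Complex.normSq_eq_norm_sq]
    push_cast
    rfl
  exact_mod_cast h2

lemma entry_le {n : ℕ} (f : unitaryGroup (Fin n) ℂ) (a b : Fin n) : ‖f.1 a b‖ ≤ 1 := by
  have h1 : ‖f.1 a b‖ ^ 2 ≤ 1 := by
    rw [← col_one f b]
    exact single_le_sum (f := fun a => ‖f.1 a b‖ ^ 2) (fun _ _ => by positivity) (mem_univ a)
  nlinarith [norm_nonneg (f.1 a b)]

/-- the defect -/
lemma defect {n Q : ℕ} (m : Fin n → ℕ) (hm : ∀ a, m a ≤ Q) (t : Fin n → ℝ)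
    (h1 : ∑ a, t a ^ 2 = 1) (hm1 : ∀ a, (m a : ℝ) ≤ Q * t a ^ 2) (hm2 : ∀ a, Q * t a ^ 2 ≤ m a + 1)
    (s : ℝ) (hs0 : 0 < s) (hn : (n : ℝ) ≤ s * Q) (f : unitaryGroup (Fin n) ℂ)
    (hf : ∑ a, ∑ b, ‖f.1 a b‖ ^ 2 * (t b - t a) ^ 2 ≤ s ^ 2) :
    ((∑ a, m a : ℕ) : ℝ) - fro (CC m hm f.1) ≤ 3 * s * Q := by
  have hQ0 : (0 : ℝ) ≤ Q := Nat.cast_nonneg _
  have e1 : ((∑ a, m a : ℕ) : ℝ) = ∑ a, ∑ b, ‖f.1 a b‖ ^ 2 * (m b : ℝ) := by
    rw [sum_comm]
    push_cast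
    refine sum_congr rfl fun b _ => ?_
    rw [← sum_mul, col_one, one_mul]
  have e2 : ∑ a, ∑ b, ‖f.1 a b‖ ^ 2 * (t a ^ 2 + t b ^ 2) = 2 := by
    have h2 : ∀ a, ∑ b, ‖f.1 a b‖ ^ 2 * (t a ^ 2 + t b ^ 2) = t a ^ 2 + ∑ b, ‖f.1 a b‖ ^ 2 * t b ^ 2 := by
      intro a
      simp only [mul_add]
      rw [sum_add_distrib, ← sum_mul, row_one, one_mul]
    rw [sum_congr rfl fun a _ => h2 a, sum_add_distrib, h1, sum_comm]
    have h3 : ∀ b, ∑ a, ‖f.1 a b‖ ^ 2 * t b ^ 2 = t b ^ 2 := by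
      intro b
      rw [← sum_mul, col_one, one_mul]
    rw [sum_congr rfl fun b _ => h3 b, h1]
    norm_num
  have e3 : ∑ a : Fin n, ∑ b, ‖f.1 a b‖ ^ 2 = n := by
    rw [sum_congr rfl fun a _ => row_one f a, sum_const, card_univ, Fintype.card_fin, nsmul_eq_mul, mul_one]
  rw [e1, fro_CC, ← sum_sub_distrib]
  have h2 : ∀ a b, (m b : ℝ) - (min (m a) (m b) : ℕ) ≤
      Q * ((t b - t a) ^ 2 / s + s / 2 * (t a ^ 2 + t b ^ 2)) + 1 := by
    intro a b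
    have hp : 0 ≤ Q * ((t b - t a) ^ 2 / s + s / 2 * (t a ^ 2 + t b ^ 2)) := by positivity
    rcases le_total (m b) (m a) with h | h
    · rw [min_eq_right h]
      linarith
    · rw [min_eq_left h]
      have h3 : (m b : ℝ) - m a ≤ Q * (t b ^ 2 - t a ^ 2) + 1 := by
        have := hm1 b
        have := hm2 a
        linarith
      have h4 : t b ^ 2 - t a ^ 2 ≤ (t b - t a) ^ 2 / s + s / 2 * (t a ^ 2 + t b ^ 2) := by
        have h5 : t b ^ 2 - t a ^ 2 = (t b - t a) * (t b + t a) := by ring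
        have h6 : (t b - t a) * (t b + t a) ≤ (t b - t a) ^ 2 / s + s / 4 * (t b + t a) ^ 2 := by
          have h7 : (t b - t a) ^ 2 / s + s / 4 * (t b + t a) ^ 2 - (t b - t a) * (t b + t a) =
              ((t b - t a) - s / 2 * (t b + t a)) ^ 2 / s := by
            field_simp
            ring
          have h8 : 0 ≤ ((t b - t a) - s / 2 * (t b + t a)) ^ 2 / s := by positivity
          linarith
        have h9 : s / 4 * (t b + t a) ^ 2 ≤ s / 2 * (t a ^ 2 + t b ^ 2) := by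
          nlinarith [sq_nonneg (t b - t a)]
        linarith
      have h5 := mul_le_mul_of_nonneg_left h4 hQ0
      linarith
  calc ∑ a, (∑ b, ‖f.1 a b‖ ^ 2 * (m b : ℝ) - ∑ b, ‖f.1 a b‖ ^ 2 * (min (m a) (m b) : ℕ))
      = ∑ a, ∑ b, ‖f.1 a b‖ ^ 2 * ((m b : ℝ) - (min (m a) (m b) : ℕ)) := by
        refine sum_congr rfl fun a _ => ?_
        rw [← sum_sub_distrib]
        refine sum_congr rfl fun b _ => ?_
        ring
    _ ≤ ∑ a, ∑ b, ‖f.1 a b‖ ^ 2 * (Q * ((t b - t a) ^ 2 / s + s / 2 * (t a ^ 2 + t b ^ 2)) + 1) :=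
        sum_le_sum fun a _ => sum_le_sum fun b _ => mul_le_mul_of_nonneg_left (h2 a b) (by positivity)
    _ = Q / s * (∑ a, ∑ b, ‖f.1 a b‖ ^ 2 * (t b - t a) ^ 2) +
          Q * (s / 2) * (∑ a, ∑ b, ‖f.1 a b‖ ^ 2 * (t a ^ 2 + t b ^ 2)) + ∑ a : Fin n, ∑ b, ‖f.1 a b‖ ^ 2 := by
        rw [mul_sum, mul_sum, ← sum_add_distrib, ← sum_add_distrib]
        refine sum_congr rfl fun a _ => ?_
        rw [mul_sum, mul_sum, ← sum_add_distrib, ← sum_add_distrib]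
        refine sum_congr rfl fun b _ => ?_
        ring
    _ ≤ Q / s * s ^ 2 + Q * (s / 2) * 2 + s * Q := by
        rw [e2, e3]
        have h3 : Q / s * (∑ a, ∑ b, ‖f.1 a b‖ ^ 2 * (t b - t a) ^ 2) ≤ Q / s * s ^ 2 :=
          mul_le_mul_of_nonneg_left hf (by positivity)
        linarith
    _ = 3 * s * Q := by
        field_simp
        ring

theorem core (s : ℝ) (hs0 : 0 < s) (hs1 : s ≤ 1 / 2) (n : ℕ) (I : Type) (f : I → unitaryGroup (Fin n) ℂ)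
    (t : Fin n → ℝ) (h1 : ∑ a, t a ^ 2 = 1)
    (hf : ∀ i, ∑ a, ∑ b, ‖(f i).1 a b‖ ^ 2 * (t b - t a) ^ 2 ≤ s ^ 2) :
    ∃ (M : ℕ) (W : I → unitaryGroup (Fin M) ℂ), 0 < M ∧
      (∀ i j k, ∑ a, ∑ b, ‖((f k).1 - (f i).1 * (f j).1) a b‖ ^ 2 * t b ^ 2 ≤ s ^ 2 →
        fro ((W k).1 - (W i).1 * (W j).1) ≤ 136 * s * M) ∧
      ∀ i, ‖trace (W i).1 / M - ∑ a, (t a ^ 2 : ℝ) * (f i).1 a a‖ ≤ √(6 * s) + 4 * s := by
  have hn1 : 1 ≤ n := by
    rcases Nat.eq_zero_or_pos n with h | h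
    · subst h
      rw [Fin.sum_univ_zero] at h1
      norm_num at h1
    · exact h
  obtain ⟨Q, hQ⟩ := exists_nat_ge ((n : ℝ) / s)
  have hnQ : (n : ℝ) ≤ s * Q := by
    rw [div_le_iff₀ hs0] at hQ
    linarith
  have hn1' : (1 : ℝ) ≤ n := by exact_mod_cast hn1
  have hQ0 : (0 : ℝ) < Q := by
    by_contra h
    have : (Q : ℝ) ≤ 0 := not_lt.1 h
    nlinarith
  obtain ⟨m, hmdef⟩ : ∃ m : Fin n → ℕ, m = fun a => ⌊(Q : ℝ) * t a ^ 2⌋₊ := ⟨_, rfl⟩
  have hm1 : ∀ a, (m a : ℝ) ≤ Q * t a ^ 2 := by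
    intro a
    rw [hmdef]
    exact Nat.floor_le (by positivity)
  have hm2 : ∀ a, Q * t a ^ 2 ≤ m a + 1 := by
    intro a
    rw [hmdef]
    exact (Nat.lt_floor_add_one _).le
  have ht1 : ∀ a, t a ^ 2 ≤ 1 := by
    intro a
    rw [← h1]
    exact single_le_sum (f := fun a => t a ^ 2) (fun _ _ => by positivity) (mem_univ a)
  have hm : ∀ a, m a ≤ Q := by
    intro a
    have h2 : (m a : ℝ) ≤ Q := (hm1 a).trans (by nlinarith [ht1 a])
    exact_mod_cast h2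
  have hMQ : ((∑ a, m a : ℕ) : ℝ) ≤ Q := by
    push_cast
    calc ∑ a, (m a : ℝ) ≤ ∑ a, (Q : ℝ) * t a ^ 2 := sum_le_sum fun a _ => hm1 a
      _ = Q := by rw [← mul_sum, h1, mul_one]
  have hQM : (Q : ℝ) - n ≤ ((∑ a, m a : ℕ) : ℝ) := by
    have h2 : (Q : ℝ) ≤ ((∑ a, m a : ℕ) : ℝ) + n := by
      calc (Q : ℝ) = ∑ a, (Q : ℝ) * t a ^ 2 := by rw [← mul_sum, h1, mul_one]
        _ ≤ ∑ a, ((m a : ℝ) + 1) := sum_le_sum fun a _ => hm2 a
        _ = ((∑ a, m a : ℕ) : ℝ) + n := by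
          rw [sum_add_distrib]
          push_cast
          rw [sum_const, card_univ, Fintype.card_fin, nsmul_eq_mul, mul_one]
    linarith
  have hQ2M : (Q : ℝ) ≤ 2 * ((∑ a, m a : ℕ) : ℝ) := by nlinarith
  have hM0 : (0 : ℝ) < ((∑ a, m a : ℕ) : ℝ) := by linarith
  have hJ := Jm_isometry (jj m hm) (jj_inj m hm)
  have hKu : ∀ i, (KK Q (f i).1)ᴴ * KK Q (f i).1 = 1 := by
    intro i
    rw [KK_star, KK_mul, uh_mul, KK_one]
  have hKu' : ∀ i, KK Q (f i).1 * (KK Q (f i).1)ᴴ = 1 := by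
    intro i
    rw [KK_star, KK_mul, mul_uh, KK_one]
  have hcard : (Fintype.card (Fin (∑ a, m a)) : ℝ) = ((∑ a, m a : ℕ) : ℝ) := by rw [Fintype.card_fin]
  have hdef : ∀ i, ((∑ a, m a : ℕ) : ℝ) - fro (CC m hm (f i).1) ≤ 3 * s * Q :=
    fun i => defect m hm t h1 hm1 hm2 s hs0 hnQ (f i) (hf i)
  -- the unitaries
  have hex : ∀ i, ∃ u : Matrix (Fin (∑ a, m a)) (Fin (∑ a, m a)) ℂ, uᴴ * u = 1 ∧ u * uᴴ = 1 ∧
      fro (u - CC m hm (f i).1) ≤ 3 * s * Q := by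
    intro i
    obtain ⟨u, hu1, hu2, hu3⟩ := polar rfl (CC m hm (f i).1) (fun v => ctrL _ hJ _ (hKu i) v)
    refine ⟨u, hu1, hu2, hu3.trans ?_⟩
    rw [hcard]
    exact hdef i
  choose u hu1 hu2 hu3 using hex
  refine ⟨∑ a, m a, fun i => ⟨u i, mem_unitaryGroup_iff.2 (hu2 i)⟩, by exact_mod_cast hM0, ?_, ?_⟩
  · intro i j k hijk
    show fro (u k - u i * u j) ≤ _
    have h2 := abs2 (u i) (u j) (u k) (CC m hm (f i).1) (CC m hm (f j).1) (CC m hm (f k).1) (hu1 i)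
      (fun A => ctrR _ hJ _ (hKu' j) A)
    have h3 := abs1 _ hJ (KK Q (f i).1) (KK Q (f j).1) (KK Q (f k).1) (hKu i) (hKu j)
    have h4 : fro ((Jm (jj m hm))ᴴ * ((KK Q (f k).1 - KK Q (f i).1 * KK Q (f j).1) * Jm (jj m hm))) ≤ s * Q := by
      rw [KK_mul, KK_sub]
      show fro (CC m hm ((f k).1 - (f i).1 * (f j).1)) ≤ _
      rw [fro_CC]
      calc ∑ a, ∑ b, ‖((f k).1 - (f i).1 * (f j).1) a b‖ ^ 2 * (min (m a) (m b) : ℕ)
          ≤ ∑ a, ∑ b, ‖((f k).1 - (f i).1 * (f j).1) a b‖ ^ 2 * (Q * t b ^ 2) := by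
            refine sum_le_sum fun a _ => sum_le_sum fun b _ => mul_le_mul_of_nonneg_left ?_ (by positivity)
            refine le_trans ?_ (hm1 b)
            exact_mod_cast min_le_right _ _
        _ = Q * ∑ a, ∑ b, ‖((f k).1 - (f i).1 * (f j).1) a b‖ ^ 2 * t b ^ 2 := by
            rw [mul_sum]
            refine sum_congr rfl fun a _ => ?_
            rw [mul_sum]
            refine sum_congr rfl fun b _ => ?_
            ring
        _ ≤ Q * s ^ 2 := mul_le_mul_of_nonneg_left hijk hQ0.le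
        _ ≤ s * Q := by nlinarith
    rw [hcard] at h3
    change fro (CC m hm (f k).1 - CC m hm (f i).1 * CC m hm (f j).1) ≤
      2 * _ + 2 * (((∑ a, m a : ℕ) : ℝ) - fro (CC m hm (f j).1)) at h3
    have h5 := hdef j
    have h6 := hu3 i
    have h7 := hu3 j
    have h8 := hu3 k
    have h9 : s * Q ≤ s * (2 * ((∑ a, m a : ℕ) : ℝ)) := mul_le_mul_of_nonneg_left hQ2M hs0.le
    linarith
  · intro i
    show ‖trace (u i) / ((∑ a, m a : ℕ) : ℂ) - _‖ ≤ _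
    obtain ⟨τ, hτ⟩ : ∃ τ : ℂ, τ = ∑ a, ((t a ^ 2 : ℝ) : ℂ) * (f i).1 a a := ⟨_, rfl⟩
    rw [← hτ]
    have hτ1 : ‖τ‖ ≤ 1 := by
      rw [hτ]
      refine (norm_sum_le _ _).trans ?_
      rw [← h1]
      refine sum_le_sum fun a _ => ?_
      rw [norm_mul, Complex.norm_real, Real.norm_of_nonneg (by positivity)]
      exact mul_le_of_le_one_right (by positivity) (entry_le _ _ _)
    have h2 : ‖trace (u i - CC m hm (f i).1)‖ ≤ √(6 * s) * ((∑ a, m a : ℕ) : ℝ) := by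
      have h3 := norm_trace_le (u i - CC m hm (f i).1)
      rw [Fintype.card_fin] at h3
      have h4 : ‖trace (u i - CC m hm (f i).1)‖ ^ 2 ≤ (√(6 * s) * ((∑ a, m a : ℕ) : ℝ)) ^ 2 := by
        rw [mul_pow, Real.sq_sqrt (by positivity)]
        calc _ ≤ _ := h3
          _ ≤ ((∑ a, m a : ℕ) : ℝ) * (3 * s * (2 * ((∑ a, m a : ℕ) : ℝ))) := by
              refine mul_le_mul_of_nonneg_left ((hu3 i).trans ?_) hM0.le
              exact mul_le_mul_of_nonneg_left hQ2M (by positivity)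
          _ = 6 * s * ((∑ a, m a : ℕ) : ℝ) ^ 2 := by ring
      exact le_of_sq_le_sq h4 (by positivity)
    have h3 : ‖trace (CC m hm (f i).1) - Q * τ‖ ≤ n := by
      rw [trace_CC, hτ, mul_sum, ← sum_sub_distrib]
      refine (norm_sum_le _ _).trans ?_
      have h4 : ∀ a ∈ (univ : Finset (Fin n)), ‖(m a : ℂ) * (f i).1 a a - Q * (((t a ^ 2 : ℝ) : ℂ) * (f i).1 a a)‖ ≤ 1 := by
        intro a _
        have e1 : (m a : ℂ) * (f i).1 a a - Q * (((t a ^ 2 : ℝ) : ℂ) * (f i).1 a a) =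
            (((m a : ℝ) - Q * t a ^ 2 : ℝ) : ℂ) * (f i).1 a a := by
          push_cast
          ring
        rw [e1, norm_mul, Complex.norm_real, Real.norm_eq_abs]
        have h5 : |(m a : ℝ) - Q * t a ^ 2| ≤ 1 := by
          rw [abs_le]
          constructor
          · have := hm2 a
            linarith
          · have := hm1 a
            linarith
        calc |(m a : ℝ) - Q * t a ^ 2| * ‖(f i).1 a a‖ ≤ 1 * 1 :=
              mul_le_mul h5 (entry_le _ _ _) (norm_nonneg _) zero_le_one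
          _ = 1 := one_mul _
      refine (sum_le_sum h4).trans ?_
      rw [sum_const, card_univ, Fintype.card_fin, nsmul_eq_mul, mul_one]
    have h4 : ‖(Q : ℂ) * τ - ((∑ a, m a : ℕ) : ℂ) * τ‖ ≤ n := by
      have e1 : (Q : ℂ) * τ - ((∑ a, m a : ℕ) : ℂ) * τ = (((Q : ℝ) - ((∑ a, m a : ℕ) : ℝ) : ℝ) : ℂ) * τ := by
        push_cast
        ring
      rw [e1, norm_mul, Complex.norm_real, Real.norm_of_nonneg (by linarith)]
      calc ((Q : ℝ) - ((∑ a, m a : ℕ) : ℝ)) * ‖τ‖ ≤ n * 1 :=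
            mul_le_mul (by linarith) hτ1 (norm_nonneg _) (Nat.cast_nonneg _)
        _ = n := mul_one _
    have hMc : ((∑ a, m a : ℕ) : ℂ) ≠ 0 := by
      have : ((∑ a, m a : ℕ) : ℝ) ≠ 0 := hM0.ne'
      exact_mod_cast this
    have e2 : trace (u i) / ((∑ a, m a : ℕ) : ℂ) - τ = (trace (u i - CC m hm (f i).1) +
        (trace (CC m hm (f i).1) - Q * τ) + (Q * τ - ((∑ a, m a : ℕ) : ℂ) * τ)) / ((∑ a, m a : ℕ) : ℂ) := by
      rw [trace_sub]
      field_simp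
      ring
    rw [e2, norm_div, Complex.norm_natCast, div_le_iff₀ hM0]
    refine (norm_add₃_le).trans ?_
    have h5 : s * Q ≤ s * (2 * ((∑ a, m a : ℕ) : ℝ)) := mul_le_mul_of_nonneg_left hQ2M hs0.le
    have h6 : (√(6 * s) + 4 * s) * ((∑ a, m a : ℕ) : ℝ) =
      √(6 * s) * ((∑ a, m a : ℕ) : ℝ) + 4 * s * ((∑ a, m a : ℕ) : ℝ) := by ring
    rw [h6]
    linarith

/-! ### The general case -/

theorem t_MTB : S_MTB := by
  intro ε' hε'
  obtain ⟨e, he⟩ : ∃ e : ℝ, e = min ε' 1 := ⟨_, rfl⟩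
  have he0 : 0 < e := by rw [he]; exact lt_min hε' one_pos
  have he1 : e ≤ 1 := by rw [he]; exact min_le_right _ _
  have heε : e ≤ ε' := by rw [he]; exact min_le_left _ _
  obtain ⟨s, hs⟩ : ∃ s : ℝ, s = e ^ 2 / 200 := ⟨_, rfl⟩
  have hs0 : 0 < s := by rw [hs]; positivity
  have hse : s ≤ e / 200 := by rw [hs]; nlinarith
  have hs1 : s ≤ 1 / 2 := by linarith
  have hsq : √(6 * s) ≤ e / 2 := by
    rw [Real.sqrt_le_left (by positivity), hs]
    nlinarith [sq_nonneg e]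
  refine ⟨s ^ 2, by positivity, fun n I _ φ T hT hT1 hcomm => ?_⟩
  obtain ⟨U, hU⟩ : ∃ U : unitaryGroup (Fin n) ℂ, U = hT.1.eigenvectorUnitary := ⟨_, rfl⟩
  obtain ⟨t, ht⟩ : ∃ t : Fin n → ℝ, t = hT.1.eigenvalues := ⟨_, rfl⟩
  obtain ⟨D, hD⟩ : ∃ D : Matrix (Fin n) (Fin n) ℂ, D = diagonal (fun a => ((t a : ℝ) : ℂ)) := ⟨_, rfl⟩
  have hTD : T = U.1 * D * (U.1)ᴴ := by
    have h := hT.1.spectral_theorem
    rw [Unitary.conjStarAlgAut_apply] at h
    rw [hU, hD, ht]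
    exact h
  have hTU : T * U.1 = U.1 * D := by
    rw [hTD, Matrix.mul_assoc, uh_mul, Matrix.mul_one]
  have hUT : (U.1)ᴴ * T = D * (U.1)ᴴ := by
    rw [hTD, ← Matrix.mul_assoc, ← Matrix.mul_assoc, uh_mul, Matrix.one_mul]
  have hcj : ∀ A : Matrix (Fin n) (Fin n) ℂ, fro ((U.1)ᴴ * A * U.1) = fro A := by
    intro A
    rw [fro_mul_right U.1 (mul_uh U), fro_mul_left (U.1)ᴴ (by rw [conjTranspose_conjTranspose, mul_uh])]
  obtain ⟨f, hf⟩ : ∃ f : I → unitaryGroup (Fin n) ℂ, f = fun i => U⁻¹ * φ i * U := ⟨_, rfl⟩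
  have hf1 : ∀ i, (f i).1 = (U.1)ᴴ * (φ i).1 * U.1 := by
    intro i
    rw [hf]
    rfl
  have h1 : ∑ a, t a ^ 2 = 1 := by
    have h2 : fro D = 1 := by
      have h3 : fro D = fro T := by
        rw [← hcj T, Matrix.mul_assoc, hTU, ← Matrix.mul_assoc, uh_mul, Matrix.one_mul]
      rw [h3]
      exact hT1
    rw [← h2, hD]
    unfold fro
    refine sum_congr rfl fun a _ => ?_
    rw [sum_eq_single a]
    · rw [diagonal_apply_eq, Complex.norm_real, Real.norm_eq_abs, sq_abs]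
    · intro b _ hb
      rw [diagonal_apply_ne _ (Ne.symm hb), norm_zero]
      norm_num
    · intro h
      exact absurd (mem_univ a) h
  have h2 : ∀ i, ∑ a, ∑ b, ‖(f i).1 a b‖ ^ 2 * (t b - t a) ^ 2 ≤ s ^ 2 := by
    intro i
    refine le_trans (le_of_eq ?_) (hcomm i)
    show _ = fro _
    rw [← hcj]
    have e1 : (U.1)ᴴ * ((φ i).1 * T - T * (φ i).1) * U.1 = (f i).1 * D - D * (f i).1 := by
      rw [hf1, Matrix.mul_sub, Matrix.sub_mul]
      congr 1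
      · simp only [Matrix.mul_assoc]
        rw [hTU]
      · rw [← Matrix.mul_assoc, hUT]
        simp only [Matrix.mul_assoc]
    rw [e1]
    unfold fro
    refine sum_congr rfl fun a _ => sum_congr rfl fun b _ => ?_
    rw [Matrix.sub_apply, hD, Matrix.mul_diagonal, Matrix.diagonal_mul]
    have e2 : (f i).1 a b * ((t b : ℝ) : ℂ) - ((t a : ℝ) : ℂ) * (f i).1 a b =
        (f i).1 a b * ((t b - t a : ℝ) : ℂ) := by
      push_cast
      ring
    rw [e2, norm_mul, mul_pow, Complex.norm_real, Real.norm_eq_abs, sq_abs]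
  obtain ⟨M, W, hM, hW1, hW2⟩ := core s hs0 hs1 n I f t h1 h2
  have hM0 : (0 : ℝ) ≤ M := Nat.cast_nonneg _
  refine ⟨M, W, hM, fun i j k hijk => ?_, fun i => ?_⟩
  · refine (hW1 i j k ?_).trans ?_
    · refine le_trans (le_of_eq ?_) hijk
      show _ = fro _
      rw [← hcj]
      have e1 : (U.1)ᴴ * (((φ k).1 - (φ i).1 * (φ j).1) * T) * U.1 =
          ((f k).1 - (f i).1 * (f j).1) * D := by
        have e3 : (f i).1 * (f j).1 = (U.1)ᴴ * ((φ i).1 * (φ j).1) * U.1 := by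
          rw [hf1, hf1]
          have e4 : (U.1)ᴴ * (φ i).1 * U.1 * ((U.1)ᴴ * (φ j).1 * U.1) =
              (U.1)ᴴ * (φ i).1 * (U.1 * (U.1)ᴴ) * (φ j).1 * U.1 := by
            simp only [Matrix.mul_assoc]
          rw [e4, mul_uh, Matrix.mul_one]
          simp only [Matrix.mul_assoc]
        rw [e3, hf1, ← Matrix.sub_mul, ← Matrix.mul_sub]
        simp only [Matrix.mul_assoc]
        rw [hTU]
      rw [e1]
      unfold fro
      refine sum_congr rfl fun a _ => sum_congr rfl fun b _ => ?_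
      rw [hD, Matrix.mul_diagonal, norm_mul, mul_pow, Complex.norm_real, Real.norm_eq_abs, sq_abs]
    · exact mul_le_mul_of_nonneg_right (by linarith) hM0
  · have e1 : trace (T * (φ i).1 * T) = ∑ a, ((t a ^ 2 : ℝ) : ℂ) * (f i).1 a a := by
      have e2 : T * (φ i).1 * T = U.1 * (D * (f i).1 * D) * (U.1)ᴴ := by
        rw [hf1, hTD]
        simp only [Matrix.mul_assoc]
      rw [e2, trace_mul_comm, ← Matrix.mul_assoc, uh_mul, Matrix.one_mul]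
      unfold trace
      refine sum_congr rfl fun a _ => ?_
      rw [Matrix.diag_apply, hD, Matrix.mul_diagonal, Matrix.diagonal_mul]
      push_cast
      ring
    rw [e1]
    refine (hW2 i).trans ?_
    linarith

end

end Pool.Agent.P8H53.RE
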